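import Pool.Agent.H28.Carpet.Coding

open MeasureTheory Filter Topology Set
open scoped ENNReal NNReal

namespace Pool.Agent.H28.Carpet

variable {m n : ℕ}

/-- McMullen's value `log M / log m + log (N/M) / log n` of the Minkowski dimension. -/
noncomputable def boxDim (D : Finset (Fin m × Fin n)) : ℝ :=
  Real.log (columns D).card / Real.log m
    + Real.log ((D.card : ℝ) / (columns D).card) / Real.log n

theorem lev_le (hm : 2 ≤ m) (hmn : m < n) (k : ℕ) : lev m n k ≤ k := by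
  unfold lev
  calc Nat.log n (m ^ k) ≤ Nat.log m (m ^ k) := Nat.log_anti_left (by omega) hmn.le
    _ = k := Nat.log_pow (by omega) k

theorem pow_lev_le (hm : 2 ≤ m) (k : ℕ) : n ^ lev m n k ≤ m ^ k :=
  Nat.pow_log_le_self n (pow_ne_zero _ (by omega))

theorem lt_pow_lev (hn : 1 < n) (k : ℕ) : m ^ k < n ^ (lev m n k + 1) :=
  Nat.lt_pow_succ_log_self hn _

variable (D : Finset (Fin m × Fin n))

theorem log_count (hm : 2 ≤ m) (hmn : m < n) (hD : D.Nonempty) (k : ℕ) :
    Real.log ((D.card : ℝ) ^ (lev m n k) * ((columns D).card : ℝ) ^ (k - lev m n k))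
      = k * Real.log (columns D).card
        + lev m n k * Real.log ((D.card : ℝ) / (columns D).card) := by
  have hN : (0 : ℝ) < D.card := by exact_mod_cast hD.card_pos
  have hM : (0 : ℝ) < (columns D).card := by exact_mod_cast columns_card_pos D hD
  rw [Real.log_mul (by positivity) (by positivity), Real.log_pow, Real.log_pow,
    Nat.cast_sub (lev_le hm hmn k), Real.log_div hN.ne' hM.ne']
  ring

theorem log_ratio_nonneg (hD : D.Nonempty) :
    0 ≤ Real.log ((D.card : ℝ) / (columns D).card) := by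
  have hM : (0 : ℝ) < (columns D).card := by exact_mod_cast columns_card_pos D hD
  apply Real.log_nonneg
  rw [le_div_iff₀ hM, one_mul]
  exact_mod_cast columns_card_le D

theorem count_le (hm : 2 ≤ m) (hmn : m < n) (hD : D.Nonempty) (k : ℕ) :
    (D.card : ℝ) ^ (lev m n k) * ((columns D).card : ℝ) ^ (k - lev m n k)
      ≤ ((m : ℝ) ^ k) ^ boxDim D := by
  have hN : (0 : ℝ) < D.card := by exact_mod_cast hD.card_pos
  have hM : (0 : ℝ) < (columns D).card := by exact_mod_cast columns_card_pos D hD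
  have hm0 : (0 : ℝ) < m := by positivity
  have hlogm : 0 < Real.log m := Real.log_pos (by exact_mod_cast (by omega : 1 < m))
  have hlogn : 0 < Real.log n := Real.log_pos (by exact_mod_cast (by omega : 1 < n))
  rw [← Real.log_le_log_iff (by positivity) (by positivity), log_count D hm hmn hD,
    Real.log_rpow (by positivity), Real.log_pow]
  unfold boxDim
  have h1 : (lev m n k : ℝ) * Real.log n ≤ k * Real.log m := by
    rw [← Real.log_pow, ← Real.log_pow]
    apply Real.log_le_log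
    · have : 0 < n := by omega
      positivity
    · exact_mod_cast pow_lev_le hm k
  have h2 : (lev m n k : ℝ) ≤ k * Real.log m / Real.log n := by
    rwa [le_div_iff₀ hlogn]
  have h3 := mul_le_mul_of_nonneg_right h2 (log_ratio_nonneg D hD)
  calc _ ≤ k * Real.log (columns D).card
        + k * Real.log m / Real.log n * Real.log ((D.card : ℝ) / (columns D).card) := by linarith
    _ = _ := by field_simp

theorem le_count (hm : 2 ≤ m) (hmn : m < n) (hD : D.Nonempty) (k : ℕ) :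
    (columns D).card / (D.card : ℝ) * ((m : ℝ) ^ k) ^ boxDim D ≤
      (D.card : ℝ) ^ (lev m n k) * ((columns D).card : ℝ) ^ (k - lev m n k) := by
  have hN : (0 : ℝ) < D.card := by exact_mod_cast hD.card_pos
  have hM : (0 : ℝ) < (columns D).card := by exact_mod_cast columns_card_pos D hD
  have hm0 : (0 : ℝ) < m := by positivity
  have hlogm : 0 < Real.log m := Real.log_pos (by exact_mod_cast (by omega : 1 < m))
  have hlogn : 0 < Real.log n := Real.log_pos (by exact_mod_cast (by omega : 1 < n))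
  rw [← Real.log_le_log_iff (by positivity) (by positivity), log_count D hm hmn hD,
    Real.log_mul (by positivity) (by positivity), Real.log_rpow (by positivity), Real.log_pow]
  have h0 : Real.log ((columns D).card / (D.card : ℝ))
      = - Real.log ((D.card : ℝ) / (columns D).card) := by
    rw [← Real.log_inv, inv_div]
  rw [h0]
  unfold boxDim
  have h1 : k * Real.log m ≤ ((lev m n k : ℝ) + 1) * Real.log n := by
    have : ((lev m n k : ℝ) + 1) = ((lev m n k + 1 : ℕ) : ℝ) := by push_cast; ring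
    rw [this, ← Real.log_pow, ← Real.log_pow]
    apply Real.log_le_log (by positivity)
    exact_mod_cast (lt_pow_lev (by omega) k).le
  have h2 : k * Real.log m / Real.log n ≤ (lev m n k : ℝ) + 1 := by
    rwa [div_le_iff₀ hlogn]
  have h3 := mul_le_mul_of_nonneg_right h2 (log_ratio_nonneg D hD)
  calc _ = k * Real.log (columns D).card
        + (k * Real.log m / Real.log n * Real.log ((D.card : ℝ) / (columns D).card)
          - Real.log ((D.card : ℝ) / (columns D).card)) := by field_simp; ring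
    _ ≤ _ := by linarith

theorem boxDim_nonneg (hm : 2 ≤ m) (hmn : m < n) (hD : D.Nonempty) : 0 ≤ boxDim D := by
  have hlogm : 0 < Real.log m := Real.log_pos (by exact_mod_cast (by omega : 1 < m))
  have hlogn : 0 < Real.log n := Real.log_pos (by exact_mod_cast (by omega : 1 < n))
  unfold boxDim
  have h1 : 0 ≤ Real.log (columns D).card := Real.log_natCast_nonneg _
  have h2 := log_ratio_nonneg D hD
  positivity

theorem dist_le_abs (p q : Plane) : dist p q ≤ |p 0 - q 0| + |p 1 - q 1| := by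
  rw [EuclideanSpace.dist_eq]
  apply Real.sqrt_le_iff.2
  refine ⟨by positivity, ?_⟩
  rw [Fin.sum_univ_two, Real.dist_eq, Real.dist_eq]
  nlinarith [abs_nonneg (p 0 - q 0), abs_nonneg (p 1 - q 1)]

theorem coding_dist {D : Finset (Fin m × Fin n)} (hm : 2 ≤ m) (hmn : m < n) {k : ℕ}
    {ω ω' : ℕ → D} (h : ω' ∈ cyl D k ω) :
    dist (coding D ω') (coding D ω) < 2 * n * ((m : ℝ) ^ k)⁻¹ := by
  rw [coding_eq hm (by omega), coding_eq hm (by omega)]
  refine lt_of_le_of_lt (dist_le_abs _ _) ?_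
  have h1 : |Real.ofDigits (colSeq ω') - Real.ofDigits (colSeq ω)| ≤ ((m : ℝ) ^ k)⁻¹ :=
    Real.abs_ofDigits_sub_ofDigits_le fun t ht => h.2 t ht
  have h2 : |Real.ofDigits (rowSeq ω') - Real.ofDigits (rowSeq ω)| ≤ ((n : ℝ) ^ (lev m n k))⁻¹ :=
    Real.abs_ofDigits_sub_ofDigits_le fun t ht => by
      unfold rowSeq
      rw [h.1 t ht]
  have hm0 : (0 : ℝ) < m := by positivity
  have hn0 : (0 : ℝ) < n := by exact_mod_cast (by omega : 0 < n)
  have h3 : ((n : ℝ) ^ (lev m n k))⁻¹ < n * ((m : ℝ) ^ k)⁻¹ := by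
    rw [← div_eq_mul_inv, inv_eq_one_div, div_lt_div_iff₀ (by positivity) (by positivity), one_mul,
      ← pow_succ']
    exact_mod_cast lt_pow_lev (by omega) k
  have h4 : (1 : ℝ) ≤ n := by exact_mod_cast (by omega : 1 ≤ n)
  have h5 : ((m : ℝ) ^ k)⁻¹ ≤ n * ((m : ℝ) ^ k)⁻¹ := le_mul_of_one_le_left (by positivity) h4
  have e0 : (!₂[Real.ofDigits (colSeq ω'), Real.ofDigits (rowSeq ω')] : Plane) 0
    = Real.ofDigits (colSeq ω') := rfl
  have e1 : (!₂[Real.ofDigits (colSeq ω'), Real.ofDigits (rowSeq ω')] : Plane) 1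
    = Real.ofDigits (rowSeq ω') := rfl
  have e2 : (!₂[Real.ofDigits (colSeq ω), Real.ofDigits (rowSeq ω)] : Plane) 0
    = Real.ofDigits (colSeq ω) := rfl
  have e3 : (!₂[Real.ofDigits (colSeq ω), Real.ofDigits (rowSeq ω)] : Plane) 1
    = Real.ofDigits (rowSeq ω) := rfl
  rw [e0, e1, e2, e3]
  linarith

theorem exists_poly_bound (hm : 2 ≤ m) {ε : ℝ} (hε : 0 < ε) :
    ∃ B : ℝ, 0 < B ∧ ∀ k : ℕ, ((k : ℝ) + 2) ^ 3 ≤ B * ((m : ℝ) ^ k) ^ ε := by
  have hm1 : (1 : ℝ) < m := by exact_mod_cast (by omega : 1 < m)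
  have hm0 : (0 : ℝ) < m := by linarith
  have hr : 1 < (m : ℝ) ^ ε := Real.one_lt_rpow hm1 hε
  have h1 := tendsto_pow_const_div_const_pow_of_one_lt 3 hr
  obtain ⟨B, hB⟩ := h1.bddAbove_range
  have hB' : ∀ k : ℕ, (k : ℝ) ^ 3 / ((m : ℝ) ^ ε) ^ k ≤ B := fun k => hB ⟨k, rfl⟩
  have hB0 : 0 ≤ B := le_trans (by positivity) (hB' 0)
  refine ⟨(B + 1) * ((m : ℝ) ^ ε) ^ 2, by positivity, fun k => ?_⟩
  have h2 := hB' (k + 2)
  rw [div_le_iff₀ (by positivity)] at h2
  push_cast at h2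
  have h3 : ((m : ℝ) ^ k) ^ ε = ((m : ℝ) ^ ε) ^ k := by
    rw [← Real.rpow_natCast, ← Real.rpow_natCast, ← Real.rpow_mul hm0.le, ← Real.rpow_mul hm0.le,
      mul_comm]
  rw [h3]
  calc ((k : ℝ) + 2) ^ 3 ≤ B * ((m : ℝ) ^ ε) ^ (k + 2) := h2
    _ ≤ (B + 1) * ((m : ℝ) ^ ε) ^ (k + 2) := by gcongr; linarith
    _ = _ := by rw [pow_add]; ring

theorem ball_bound (hm : 2 ≤ m) (hmn : m < n) (hD : D.Nonempty) {s : ℝ} (hs : boxDim D < s) :
    ∃ C : ℝ, 0 < C ∧ ∀ ω : ℕ → D, ∀ r : ℝ, 0 < r → r ≤ 1 →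
      ENNReal.ofReal (C * r ^ s) ≤
        (mixP D hD).map (coding D) (Metric.ball (coding D ω) r) := by
  obtain ⟨B, hB0, hB⟩ := exists_poly_bound hm (sub_pos.2 hs)
  have hm1 : (1 : ℝ) < m := by exact_mod_cast (by omega : 1 < m)
  have hm0 : (0 : ℝ) < m := by linarith
  have hn0 : (0 : ℝ) < n := by exact_mod_cast (by omega : 0 < n)
  have hN : (0 : ℝ) < D.card := by exact_mod_cast hD.card_pos
  have hM : (0 : ℝ) < (columns D).card := by exact_mod_cast columns_card_pos D hD
  have hs0 : 0 < s := lt_of_le_of_lt (boxDim_nonneg D hm hmn hD) hs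
  refine ⟨1 / (B * (2 * n * m) ^ s), by positivity, fun ω r hr hr1 => ?_⟩
  have hex : ∃ k : ℕ, 2 * n ≤ r * (m : ℝ) ^ k := by
    obtain ⟨k, hk⟩ := pow_unbounded_of_one_lt (2 * n / r) hm1
    refine ⟨k, ?_⟩
    rw [div_lt_iff₀ hr] at hk
    linarith
  classical
  obtain ⟨k, hk1, hk2⟩ : ∃ k : ℕ, 2 * n ≤ r * (m : ℝ) ^ k ∧ r * (m : ℝ) ^ k ≤ 2 * n * m := by
    refine ⟨Nat.find hex, Nat.find_spec hex, ?_⟩
    rcases Nat.eq_zero_or_pos (Nat.find hex) with h0 | h0
    · rw [h0, pow_zero, mul_one]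
      have : (1 : ℝ) ≤ n := by exact_mod_cast (by omega : 1 ≤ n)
      nlinarith
    · obtain ⟨j, hj⟩ := Nat.exists_eq_succ_of_ne_zero h0.ne'
      have h1 : ¬ (2 * n ≤ r * (m : ℝ) ^ j) := Nat.find_min hex (by omega)
      rw [hj, Nat.succ_eq_add_one, pow_succ]
      push Not at h1
      nlinarith
  have hsub : cyl D k ω ⊆ coding D ⁻¹' Metric.ball (coding D ω) r := by
    intro ω' hω'
    rw [mem_preimage, Metric.mem_ball]
    refine lt_of_lt_of_le (coding_dist hm hmn hω') ?_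
    rw [← div_eq_mul_inv, div_le_iff₀ (by positivity)]
    exact hk1
  rw [Measure.map_apply (continuous_coding hm (by omega)).measurable Metric.isOpen_ball.measurableSet]
  refine le_trans ?_ (measure_mono hsub)
  refine le_trans ?_ (mixP_cyl D hD (lev_le hm hmn k) ω)
  have hconv : mixW k * (((k + 1 : ℕ) : ℝ≥0∞)⁻¹ * (((D.card : ℝ≥0∞)⁻¹) ^ (lev m n k) *
      (((columns D).card : ℝ≥0∞)⁻¹) ^ (k - lev m n k)))
      = ENNReal.ofReal (1 / (((k : ℝ) + 1) * (k + 2)) * (((k + 1 : ℕ) : ℝ)⁻¹ *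
        (((D.card : ℝ)⁻¹) ^ (lev m n k) * (((columns D).card : ℝ)⁻¹) ^ (k - lev m n k)))) := by
    unfold mixW
    rw [ENNReal.ofReal_mul (by positivity), ENNReal.ofReal_mul (by positivity),
      ENNReal.ofReal_mul (by positivity), ENNReal.ofReal_inv_of_pos (by positivity),
      ENNReal.ofReal_pow (by positivity), ENNReal.ofReal_pow (by positivity),
      ENNReal.ofReal_inv_of_pos hN, ENNReal.ofReal_inv_of_pos hM, ENNReal.ofReal_natCast,
      ENNReal.ofReal_natCast, ENNReal.ofReal_natCast]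
  rw [hconv]
  apply ENNReal.ofReal_le_ofReal
  have hcount := count_le D hm hmn hD k
  have h1 : (1 / (((k : ℝ) + 1) * (k + 2)) * (((k + 1 : ℕ) : ℝ)⁻¹ *
        (((D.card : ℝ)⁻¹) ^ (lev m n k) * (((columns D).card : ℝ)⁻¹) ^ (k - lev m n k))))
      = 1 / ((((k : ℝ) + 1) * (k + 2) * (k + 1)) * ((D.card : ℝ) ^ (lev m n k) *
        ((columns D).card : ℝ) ^ (k - lev m n k))) := by
    push_cast
    rw [inv_pow, inv_pow]
    field_simp
  rw [h1]
  have h2 : (((k : ℝ) + 1) * (k + 2) * (k + 1)) ≤ ((k : ℝ) + 2) ^ 3 := by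
    have : (0 : ℝ) ≤ k := by positivity
    nlinarith [mul_nonneg this this, mul_nonneg (mul_nonneg this this) this]
  have h3 : (((k : ℝ) + 1) * (k + 2) * (k + 1)) * ((D.card : ℝ) ^ (lev m n k) *
        ((columns D).card : ℝ) ^ (k - lev m n k)) ≤ B * ((m : ℝ) ^ k) ^ s := by
    calc _ ≤ (B * ((m : ℝ) ^ k) ^ (s - boxDim D)) * ((m : ℝ) ^ k) ^ boxDim D := by
          apply mul_le_mul (h2.trans (hB k)) hcount (by positivity) (by positivity)
      _ = B * ((m : ℝ) ^ k) ^ s := by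
          rw [mul_assoc, ← Real.rpow_add (by positivity)]
          ring_nf
  have h4 : (m : ℝ) ^ k ≤ 2 * n * m / r := by
    rw [le_div_iff₀ hr]; linarith
  have h5 : ((m : ℝ) ^ k) ^ s ≤ (2 * n * m) ^ s / r ^ s := by
    rw [← Real.div_rpow (by positivity) hr.le]
    exact Real.rpow_le_rpow (by positivity) h4 hs0.le
  calc 1 / (B * (2 * n * m) ^ s) * r ^ s = 1 / (B * ((2 * n * m) ^ s / r ^ s)) := by
        field_simp
    _ ≤ 1 / (B * ((m : ℝ) ^ k) ^ s) := by
        apply one_div_le_one_div_of_le (by positivity)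
        exact mul_le_mul_of_nonneg_left h5 hB0.le
    _ ≤ _ := one_div_le_one_div_of_le (by positivity) h3

end Pool.Agent.H28.Carpet
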