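import Pool.Agent.H28.Carpet.Meas

open MeasureTheory Filter Topology Set
open scoped ENNReal NNReal

namespace Pool.Agent.H28.Carpet

variable {m n : ℕ} {D : Finset (Fin m × Fin n)}

/-- Column digits. -/
def colSeq (ω : ℕ → D) : ℕ → Fin m := fun t => (ω t : Fin m × Fin n).1

/-- Row digits. -/
def rowSeq (ω : ℕ → D) : ℕ → Fin n := fun t => (ω t : Fin m × Fin n).2

theorem compMap_apply (hm : m ≠ 0) (hn : n ≠ 0) (ω : ℕ → D) (k : ℕ) (p : Plane) :
    compMap ω k p = !₂[p 0 / m ^ k + ∑ t ∈ Finset.range k, Real.ofDigitsTerm (colSeq ω) t,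
      p 1 / n ^ k + ∑ t ∈ Finset.range k, Real.ofDigitsTerm (rowSeq ω) t] := by
  have hm' : (m : ℝ) ≠ 0 := by exact_mod_cast hm
  have hn' : (n : ℝ) ≠ 0 := by exact_mod_cast hn
  induction k generalizing p with
  | zero =>
    ext i
    fin_cases i <;> simp [compMap]
  | succ k ih =>
    show compMap ω k (fmap (ω k : Fin m × Fin n) p) = _
    rw [ih]
    ext i
    fin_cases i
    · simp only [fmap, Finset.sum_range_succ, Real.ofDigitsTerm, colSeq]
      simp
      field_simp
      ring
    · simp only [fmap, Finset.sum_range_succ, Real.ofDigitsTerm, rowSeq]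
      simp
      field_simp
      ring

theorem continuous_mk2 : Continuous fun q : ℝ × ℝ => (!₂[q.1, q.2] : Plane) := by
  apply (PiLp.continuous_toLp 2 _).comp
  apply continuous_pi
  intro i
  fin_cases i
  · exact continuous_fst
  · exact continuous_snd

theorem tendsto_compMap (hm : 2 ≤ m) (hn : 2 ≤ n) (ω : ℕ → D) {p : ℕ → Plane} {R : ℝ}
    (hp : ∀ k i, |p k i| ≤ R) :
    Tendsto (fun k => compMap ω k (p k)) atTop
      (𝓝 !₂[Real.ofDigits (colSeq ω), Real.ofDigits (rowSeq ω)]) := by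
  have h0 : ∀ b : ℕ, 2 ≤ b → ∀ i, Tendsto (fun k => p k i / (b : ℝ) ^ k) atTop (𝓝 0) := by
    intro b hb i
    have hb' : (1 : ℝ) < b := by exact_mod_cast (by omega : 1 < b)
    have h1 : Tendsto (fun k : ℕ => R * ((b : ℝ)⁻¹) ^ k) atTop (𝓝 (R * 0)) :=
      (tendsto_pow_atTop_nhds_zero_of_lt_one (by positivity) (inv_lt_one_of_one_lt₀ hb')).const_mul R
    rw [mul_zero] at h1
    refine squeeze_zero_norm (fun k => ?_) h1
    rw [Real.norm_eq_abs, abs_div, abs_of_pos (by positivity : (0 : ℝ) < (b : ℝ) ^ k), inv_pow,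
      div_eq_mul_inv]
    exact mul_le_mul_of_nonneg_right (hp k i) (by positivity)
  have hs : ∀ (b : ℕ) (a : ℕ → Fin b), Tendsto (fun k => ∑ t ∈ Finset.range k,
      Real.ofDigitsTerm a t) atTop (𝓝 (Real.ofDigits a)) := fun b a =>
    Real.summable_ofDigitsTerm.hasSum.tendsto_sum_nat
  have h2 := (continuous_mk2.tendsto (Real.ofDigits (colSeq ω), Real.ofDigits (rowSeq ω))).comp
    (((zero_add (Real.ofDigits (colSeq ω))) ▸ (h0 m hm 0).add (hs m (colSeq ω))).prodMk_nhds
      ((zero_add (Real.ofDigits (rowSeq ω))) ▸ (h0 n hn 1).add (hs n (rowSeq ω))))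
  refine h2.congr fun k => ?_
  rw [compMap_apply (by omega) (by omega)]
  rfl

theorem coding_eq (hm : 2 ≤ m) (hn : 2 ≤ n) (ω : ℕ → D) :
    coding D ω = !₂[Real.ofDigits (colSeq ω), Real.ofDigits (rowSeq ω)] := by
  unfold coding
  apply Tendsto.limUnder_eq
  exact tendsto_compMap hm hn ω (p := fun _ => 0) (R := 0) (fun k i => by simp)

theorem continuous_colSeq : Continuous (colSeq (D := D)) := by
  apply continuous_pi
  intro t
  exact (continuous_fst.comp continuous_subtype_val).comp (continuous_apply t)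

theorem continuous_rowSeq : Continuous (rowSeq (D := D)) := by
  apply continuous_pi
  intro t
  exact (continuous_snd.comp continuous_subtype_val).comp (continuous_apply t)

theorem continuous_coding (hm : 2 ≤ m) (hn : 2 ≤ n) : Continuous (coding D) := by
  have h : coding D = fun ω => (!₂[Real.ofDigits (colSeq ω), Real.ofDigits (rowSeq ω)] : Plane) :=
    funext fun ω => coding_eq hm hn ω
  rw [h]
  exact continuous_mk2.comp ((Real.continuous_ofDigits.comp continuous_colSeq).prodMk
    (Real.continuous_ofDigits.comp continuous_rowSeq))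

theorem compMap_mem {Λ : Set Plane} (hΛ : IsCarpet D Λ) (ω : ℕ → D) (k : ℕ) :
    ∀ p ∈ Λ, compMap ω k p ∈ Λ := by
  induction k with
  | zero => intro p hp; exact hp
  | succ k ih =>
    intro p hp
    apply ih
    rw [hΛ.2.2]
    exact mem_iUnion₂.2 ⟨_, (ω k).2, mem_image_of_mem _ hp⟩

theorem range_coding (hm : 2 ≤ m) (hn : 2 ≤ n) {Λ : Set Plane} (hΛ : IsCarpet D Λ) :
    range (coding D) = Λ := by
  obtain ⟨R, hR⟩ : ∃ R : ℝ, ∀ p ∈ Λ, ∀ i, |p i| ≤ R := by
    obtain ⟨R, hR⟩ := hΛ.1.isBounded.exists_norm_le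
    refine ⟨R, fun p hp i => ?_⟩
    refine le_trans ?_ (hR p hp)
    rw [← Real.norm_eq_abs]
    exact PiLp.norm_apply_le p i
  apply Subset.antisymm
  · rintro _ ⟨ω, rfl⟩
    obtain ⟨p, hp⟩ := hΛ.2.1
    have h1 := tendsto_compMap hm hn ω (p := fun _ => p) (R := R) (fun k i => hR p hp i)
    rw [← coding_eq hm hn ω] at h1
    exact hΛ.1.isClosed.mem_of_tendsto h1 (Eventually.of_forall fun k => compMap_mem hΛ ω k p hp)
  · intro p hp
    have h1 : ∀ q : Λ, ∃ d : D, ∃ q' : Λ, (q : Plane) = fmap (d : Fin m × Fin n) q' := by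
      rintro ⟨q, hq⟩
      have hq' := hq
      rw [hΛ.2.2] at hq'
      obtain ⟨d, hd, q', hq'', rfl⟩ := mem_iUnion₂.1 hq'
      exact ⟨⟨d, hd⟩, ⟨q', hq''⟩, rfl⟩
    choose dd nx hnx using h1
    let P : ℕ → Λ := fun k => nx^[k] ⟨p, hp⟩
    let ω : ℕ → D := fun k => dd (P k)
    have h2 : ∀ k, compMap ω k (P k) = p := by
      intro k
      induction k with
      | zero => rfl
      | succ k ih =>
        show compMap ω k (fmap (ω k : Fin m × Fin n) (P (k + 1))) = p
        have h3 : fmap (ω k : Fin m × Fin n) (P (k + 1)) = P k := by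
          have : P (k + 1) = nx (P k) := Function.iterate_succ_apply' nx k _
          rw [this]
          exact (hnx (P k)).symm
        rw [h3, ih]
    refine ⟨ω, ?_⟩
    have h1 := tendsto_compMap hm hn ω (p := fun k => P k) (R := R) (fun k i => hR _ (P k).2 i)
    rw [← coding_eq hm hn ω] at h1
    have h3 : (fun k => compMap ω k (P k : Plane)) = fun _ => p := funext h2
    rw [h3] at h1
    exact tendsto_nhds_unique h1 tendsto_const_nhds

/-- The numeral formed by the first `k` digits. -/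
def num {b : ℕ} (a : ℕ → Fin b) : ℕ → ℕ
  | 0 => 0
  | k + 1 => b * num a k + a k

theorem num_inj {b : ℕ} {a a' : ℕ → Fin b} {k : ℕ} (h : num a k = num a' k) :
    ∀ t < k, a t = a' t := by
  induction k with
  | zero => intro t ht; omega
  | succ k ih =>
    have hb : 0 < b := Fin.pos (a 0)
    have h' : b * num a k + a k = b * num a' k + a' k := h
    have h1 : (a k : ℕ) = a' k := by
      have := congrArg (· % b) h'
      simpa [Nat.mul_add_mod, Nat.mod_eq_of_lt (a k).2, Nat.mod_eq_of_lt (a' k).2] using this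
    have h2 : num a k = num a' k := by
      rw [h1] at h'
      exact Nat.eq_of_mul_eq_mul_left hb (by omega)
    intro t ht
    rcases Nat.lt_succ_iff_lt_or_eq.1 ht with h3 | h3
    · exact ih h2 t h3
    · rw [h3]; exact Fin.ext h1

theorem sum_ofDigitsTerm {b : ℕ} (a : ℕ → Fin b) (k : ℕ) :
    ∑ t ∈ Finset.range k, Real.ofDigitsTerm a t = num a k / (b : ℝ) ^ k := by
  have hb : (b : ℝ) ≠ 0 := by exact_mod_cast (Fin.pos (a 0)).ne'
  induction k with
  | zero => simp [num]
  | succ k ih =>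
    rw [Finset.sum_range_succ, ih]
    simp only [Real.ofDigitsTerm, num]
    push_cast
    field_simp
    ring

theorem ofDigits_mem {b : ℕ} (a : ℕ → Fin b) (k : ℕ) :
    (num a k : ℝ) ≤ (b : ℝ) ^ k * Real.ofDigits a ∧
      (b : ℝ) ^ k * Real.ofDigits a ≤ num a k + 1 := by
  have hb : (0 : ℝ) < b := by exact_mod_cast (Fin.pos (a 0))
  have h1 := Real.ofDigits_eq_sum_add_ofDigits a k
  rw [sum_ofDigitsTerm] at h1
  have h2 := Real.ofDigits_nonneg fun i => a (i + k)
  have h3 := Real.ofDigits_le_one fun i => a (i + k)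
  have h4 : (b : ℝ) ^ k * Real.ofDigits a = num a k + Real.ofDigits fun i => a (i + k) := by
    rw [h1]
    field_simp
  rw [h4]
  constructor <;> linarith

end Pool.Agent.H28.Carpet
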