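import Mathlib

open MeasureTheory Filter Topology Set
open scoped ENNReal NNReal

namespace Pool.Agent.H28.Carpet

/-- The plane with its Euclidean metric. -/
abbrev Plane : Type := EuclideanSpace ℝ (Fin 2)

/-- `f_{ij}(x,y) = ((x+i)/m, (y+j)/n)` for `d = (i,j)`. -/
noncomputable def fmap {m n : ℕ} (d : Fin m × Fin n) (p : Plane) : Plane :=
  !₂[(p 0 + ((d.1 : ℕ) : ℝ)) / m, (p 1 + ((d.2 : ℕ) : ℝ)) / n]

/-- `Λ` is the Bedford-McMullen carpet of `D`: the nonempty compact set which is the union of its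
images under the maps `f_d`, `d ∈ D`. -/
def IsCarpet {m n : ℕ} (D : Finset (Fin m × Fin n)) (Λ : Set Plane) : Prop :=
  IsCompact Λ ∧ Λ.Nonempty ∧ Λ = ⋃ d ∈ D, fmap d '' Λ

/-- `f_{ω_0} ∘ ⋯ ∘ f_{ω_{k-1}}`. -/
noncomputable def compMap {m n : ℕ} {D : Finset (Fin m × Fin n)} (ω : ℕ → D) : ℕ → Plane → Plane
  | 0 => id
  | k + 1 => compMap ω k ∘ fmap (ω k : Fin m × Fin n)

/-- The coding map `π(ω) = lim_k f_{ω_0} ∘ ⋯ ∘ f_{ω_{k-1}} (0)`. -/
noncomputable def coding {m n : ℕ} (D : Finset (Fin m × Fin n)) (ω : ℕ → D) : Plane :=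
  limUnder atTop fun k => compMap ω k 0

/-- The left shift. -/
def shift {α : Type*} (ω : ℕ → α) : ℕ → α := fun k => ω (k + 1)

/-- The Minkowski dimension of a measure on the plane: the infimum of the `s ≥ 0` for which there
is `C > 0` with `μ (B(x,r)) ≥ C r^s` for all `x ∈ supp μ` and `0 < r ≤ 1`. -/
noncomputable def measureMinkowskiDim (μ : Measure Plane) : ℝ≥0∞ :=
  ⨅ (s : ℝ≥0) (_ : ∃ C : ℝ, 0 < C ∧ ∀ x ∈ μ.support, ∀ r : ℝ, 0 < r → r ≤ 1 →
    ENNReal.ofReal (C * r ^ (s : ℝ)) ≤ μ (Metric.ball x r)), (s : ℝ≥0∞)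

/-- The set `A` has Minkowski (box-counting) dimension `s`: with `N_r(A)` the least number of
closed balls of radius `r` centred in `A` needed to cover `A`, `log N_r(A) / log (1/r)` tends to
`s` as `r → 0`. -/
def HasMinkowskiDim (A : Set Plane) (s : ℝ) : Prop :=
  Tendsto (fun r : ℝ≥0 => Real.log ((Metric.coveringNumber r A).toNat : ℝ) / (-Real.log (r : ℝ)))
    (𝓝[>] 0) (𝓝 s)

end Pool.Agent.H28.Carpet
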