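import Pool.Agent.H28.Carpet.Bounds

open MeasureTheory Filter Topology Set
open scoped ENNReal NNReal

namespace Pool.Agent.H28.Carpet

/-- A finite `ε`-separated set whose points have `ε/2`-balls of measure `≥ c` has at most `1/c`
points. -/
theorem card_separated_le {X : Type*} [MetricSpace X] [MeasurableSpace X] [OpensMeasurableSpace X]
    (μ : Measure X) [IsProbabilityMeasure μ] {ε : ℝ≥0} {c : ℝ} (hc : 0 < c) (T : Finset X)
    (hT : Metric.IsSeparated ε (T : Set X))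
    (h : ∀ x ∈ T, ENNReal.ofReal c ≤ μ (Metric.ball x (ε / 2))) : (T.card : ℝ) ≤ 1 / c := by
  have hdisj : (T : Set X).PairwiseDisjoint fun x => Metric.ball x ((ε : ℝ) / 2) := by
    intro x hx y hy hxy
    apply Metric.ball_disjoint_ball
    have h1 : (ε : ℝ≥0∞) < edist x y := hT hx hy hxy
    rw [edist_nndist, ENNReal.coe_lt_coe] at h1
    have h2 : (ε : ℝ) < dist x y := by exact_mod_cast h1
    linarith
  have h1 : ∑ x ∈ T, μ (Metric.ball x ((ε : ℝ) / 2)) ≤ 1 := by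
    rw [← measure_biUnion_finset hdisj fun _ _ => Metric.isOpen_ball.measurableSet]
    exact prob_le_one
  have h2 : ∑ x ∈ T, ENNReal.ofReal c ≤ 1 := (Finset.sum_le_sum fun x hx => h x hx).trans h1
  rw [Finset.sum_const, nsmul_eq_mul, ← ENNReal.ofReal_natCast, ← ENNReal.ofReal_mul (by positivity),
    ENNReal.ofReal_le_one] at h2
  rwa [le_div_iff₀ hc]

theorem covering_le {X : Type*} [MetricSpace X] [MeasurableSpace X] [OpensMeasurableSpace X]
    (μ : Measure X) [IsProbabilityMeasure μ] (A : Set X) {ε : ℝ≥0} {c : ℝ} (hc : 0 < c)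
    (h : ∀ x ∈ A, ENNReal.ofReal c ≤ μ (Metric.ball x (ε / 2))) :
    Metric.coveringNumber ε A ≠ ⊤ ∧ ((Metric.coveringNumber ε A).toNat : ℝ) ≤ 1 / c := by
  have h1 : Metric.packingNumber ε A ≤ (⌊1 / c⌋₊ : ℕ∞) := by
    unfold Metric.packingNumber
    refine iSup_le fun S => iSup_le fun hS => iSup_le fun hsep => ?_
    by_contra hcon
    push Not at hcon
    have h2 : ((⌊1 / c⌋₊ + 1 : ℕ) : ℕ∞) ≤ S.encard := by
      push_cast
      exact Order.add_one_le_of_lt hcon
    obtain ⟨T, hTS, hTc⟩ := Set.exists_subset_encard_eq h2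
    have hfin : T.Finite := Set.finite_of_encard_eq_coe hTc
    have h3 : hfin.toFinset.card = ⌊1 / c⌋₊ + 1 := by
      rw [hfin.encard_eq_coe_toFinset_card] at hTc
      exact_mod_cast hTc
    have h4 := card_separated_le μ hc hfin.toFinset (ε := ε)
      (by rw [hfin.coe_toFinset]; exact hsep.mono hTS)
      (fun x hx => h x (hS (hTS (hfin.mem_toFinset.1 hx))))
    rw [h3] at h4
    push_cast at h4
    have h5 := Nat.lt_floor_add_one (1 / c)
    linarith
  have h2 : Metric.coveringNumber ε A ≤ (⌊1 / c⌋₊ : ℕ∞) :=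
    (Metric.coveringNumber_le_packingNumber ε A).trans h1
  have h3 : Metric.coveringNumber ε A ≠ ⊤ := ne_top_of_le_ne_top (ENat.natCast_ne_top _) h2
  refine ⟨h3, ?_⟩
  have h4 : (Metric.coveringNumber ε A).toNat ≤ ⌊1 / c⌋₊ := by
    rw [← ENat.natCast_toNat h3] at h2
    exact_mod_cast h2
  calc ((Metric.coveringNumber ε A).toNat : ℝ) ≤ ⌊1 / c⌋₊ := by exact_mod_cast h4
    _ ≤ 1 / c := Nat.floor_le (by positivity)

variable {m n : ℕ} {D : Finset (Fin m × Fin n)}

theorem exists_col (c : columns D) : ∃ d : D, (d : Fin m × Fin n).1 = c := by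
  obtain ⟨d, hd, hdc⟩ := Finset.mem_image.1 c.2
  exact ⟨⟨d, hd⟩, hdc⟩

/-- A symbol in the column `c`. -/
noncomputable def repCol (c : columns D) : D := (exists_col c).choose

theorem repCol_fst (c : columns D) : (repCol c : Fin m × Fin n).1 = c := (exists_col c).choose_spec

/-- Extension of a word to a sequence. -/
noncomputable def extW (l k : ℕ) (d0 : D) (w : (Fin l → D) × (Fin (k - l) → columns D)) : ℕ → D :=
  fun t => if h : t < l then w.1 ⟨t, h⟩ else
    if h' : t - l < k - l then repCol (w.2 ⟨t - l, h'⟩) else d0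

theorem extW_inj {l k : ℕ} (d0 : D) {w w' : (Fin l → D) × (Fin (k - l) → columns D)}
    (h1 : ∀ t < k, colSeq (extW l k d0 w) t = colSeq (extW l k d0 w') t)
    (h2 : ∀ t < l, rowSeq (extW l k d0 w) t = rowSeq (extW l k d0 w') t) (hlk : l ≤ k) :
    w = w' := by
  apply Prod.ext
  · funext t
    have e1 := h1 t (lt_of_lt_of_le t.2 hlk)
    have e2 := h2 t t.2
    simp only [colSeq, rowSeq, extW, t.2, dif_pos] at e1 e2
    exact Subtype.ext (Prod.ext e1 e2)
  · funext t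
    have ht : l + (t : ℕ) < k := by have := t.2; omega
    have e1 := h1 (l + t) ht
    have hnl : ¬ (l + (t : ℕ) < l) := by omega
    have hs : l + (t : ℕ) - l = t := by omega
    simp only [colSeq, extW, hnl, dif_neg, not_false_iff, hs, t.2, dif_pos, repCol_fst] at e1
    exact Subtype.ext e1

/-- Integers in a half-open range of length three. -/
theorem exists_fin3 {α : ℝ} {X : ℕ} (h1 : (X : ℝ) ≤ α + 1 / 2) (h2 : α ≤ X + 3 / 2) :
    ∃ j : Fin 3, (X : ℤ) = ⌈α - 3 / 2⌉ + (j : ℕ) := by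
  have h3 : ⌈α - 3 / 2⌉ ≤ (X : ℤ) := by
    rw [Int.ceil_le]
    push_cast
    linarith
  have h4 : (X : ℤ) - ⌈α - 3 / 2⌉ < 3 := by
    have h5 := Int.le_ceil (α - 3 / 2)
    have h6 : ((X : ℤ) : ℝ) - (⌈α - 3 / 2⌉ : ℤ) < 3 := by
      push_cast
      linarith
    exact_mod_cast h6
  refine ⟨⟨((X : ℤ) - ⌈α - 3 / 2⌉).toNat, by omega⟩, ?_⟩
  simp only
  omega

theorem count_le_cover (hm : 2 ≤ m) (hmn : m < n) (hD : D.Nonempty) {k : ℕ} {r : ℝ≥0}
    (hr : 2 * (r : ℝ) * (m : ℝ) ^ k ≤ 1) (S : Finset Plane)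
    (hS : Metric.IsCover r (range (coding D)) (S : Set Plane)) :
    D.card ^ (lev m n k) * (columns D).card ^ (k - lev m n k) ≤ 9 * S.card := by
  classical
  obtain ⟨d0', hd0⟩ := hD
  set d0 : D := ⟨d0', hd0⟩ with hd0def
  set l := lev m n k with hl
  have hlk : l ≤ k := lev_le hm hmn k
  have hr' : 2 * (r : ℝ) * (n : ℝ) ^ l ≤ 1 := by
    have h1 : (n : ℝ) ^ l ≤ (m : ℝ) ^ k := by exact_mod_cast pow_lev_le hm k
    have h2 : (0 : ℝ) ≤ 2 * r := by positivity
    nlinarith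
  have h1 : ∀ w : (Fin l → D) × (Fin (k - l) → columns D), ∃ p : S × Fin 3 × Fin 3,
      ((num (colSeq (extW l k d0 w)) k : ℕ) : ℤ) =
        ⌈(m : ℝ) ^ k * (p.1 : Plane) 0 - 3 / 2⌉ + (p.2.1 : ℕ) ∧
      ((num (rowSeq (extW l k d0 w)) l : ℕ) : ℤ) =
        ⌈(n : ℝ) ^ l * (p.1 : Plane) 1 - 3 / 2⌉ + (p.2.2 : ℕ) := by
    intro w
    obtain ⟨s, hsS, hs⟩ := hS (mem_range_self (extW l k d0 w))
    have hs' : edist (coding D (extW l k d0 w)) s ≤ r := hs
    rw [edist_nndist, ENNReal.coe_le_coe] at hs'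
    have hs2 : dist (coding D (extW l k d0 w)) s ≤ r := by exact_mod_cast hs'
    have hc : ∀ i, |coding D (extW l k d0 w) i - s i| ≤ r := by
      intro i
      refine le_trans ?_ hs2
      rw [dist_eq_norm, ← Real.norm_eq_abs]
      exact PiLp.norm_apply_le (coding D (extW l k d0 w) - s) i
    have hc0 := abs_le.1 (hc 0)
    have hc1 := abs_le.1 (hc 1)
    rw [coding_eq hm (by omega)] at hc0 hc1
    have e0 : ∀ x y : ℝ, (!₂[x, y] : Plane) 0 = x := fun _ _ => rfl
    have e1 : ∀ x y : ℝ, (!₂[x, y] : Plane) 1 = y := fun _ _ => rfl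
    rw [e0] at hc0
    rw [e1] at hc1
    have hX := ofDigits_mem (colSeq (extW l k d0 w)) k
    have hY := ofDigits_mem (rowSeq (extW l k d0 w)) l
    have hmk : (0 : ℝ) < (m : ℝ) ^ k := by
      have : (0 : ℝ) < m := by positivity
      positivity
    have hnl : (0 : ℝ) < (n : ℝ) ^ l := by
      have : (0 : ℝ) < n := by exact_mod_cast (by omega : 0 < n)
      positivity
    have hX1 := mul_le_mul_of_nonneg_left hc0.1 hmk.le
    have hX2 := mul_le_mul_of_nonneg_left hc0.2 hmk.le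
    have hY1 := mul_le_mul_of_nonneg_left hc1.1 hnl.le
    have hY2 := mul_le_mul_of_nonneg_left hc1.2 hnl.le
    obtain ⟨j1, hj1⟩ := exists_fin3 (α := (m : ℝ) ^ k * s 0)
      (X := num (colSeq (extW l k d0 w)) k) (by nlinarith [hX.1]) (by nlinarith [hX.2])
    obtain ⟨j2, hj2⟩ := exists_fin3 (α := (n : ℝ) ^ l * s 1)
      (X := num (rowSeq (extW l k d0 w)) l) (by nlinarith [hY.1]) (by nlinarith [hY.2])
    exact ⟨(⟨s, hsS⟩, j1, j2), hj1, hj2⟩
  choose F hF1 hF2 using h1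
  have hinj : Function.Injective F := by
    intro w w' hww
    have e1 := hF1 w
    have e2 := hF2 w
    rw [hww, ← hF1 w'] at e1
    rw [hww, ← hF2 w'] at e2
    exact extW_inj d0 (num_inj (by exact_mod_cast e1)) (num_inj (by exact_mod_cast e2)) hlk
  have hcard := Fintype.card_le_of_injective F hinj
  simp only [Fintype.card_prod, Fintype.card_fun, Fintype.card_fin, Fintype.card_coe] at hcard
  calc _ ≤ _ := hcard
    _ = _ := by ring

/-- Lower bound for the covering numbers. -/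
theorem cover_lower (hm : 2 ≤ m) (hmn : m < n) (hD : D.Nonempty) :
    ∃ c : ℝ, 0 < c ∧ ∀ r : ℝ≥0, 0 < r → (r : ℝ) ≤ 1 / 2 →
      Metric.coveringNumber r (range (coding D)) ≠ ⊤ →
      c * (r : ℝ) ^ (-boxDim D) ≤ ((Metric.coveringNumber r (range (coding D))).toNat : ℝ) := by
  have hm1 : (1 : ℝ) < m := by exact_mod_cast (by omega : 1 < m)
  have hm0 : (0 : ℝ) < m := by linarith
  have hN : (0 : ℝ) < D.card := by exact_mod_cast hD.card_pos
  have hM : (0 : ℝ) < (columns D).card := by exact_mod_cast columns_card_pos D hD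
  refine ⟨1 / 9 * ((columns D).card / (D.card : ℝ)) * ((1 / (2 * m)) ^ boxDim D), by positivity,
    fun r hr hr2 hfin => ?_⟩
  have hr0 : (0 : ℝ) < r := by exact_mod_cast hr
  have hex : ∃ k : ℕ, 1 < 2 * (r : ℝ) * (m : ℝ) ^ k := by
    obtain ⟨k, hk⟩ := pow_unbounded_of_one_lt (1 / (2 * (r : ℝ))) hm1
    refine ⟨k, ?_⟩
    rw [div_lt_iff₀ (by positivity)] at hk
    linarith
  classical
  obtain ⟨k, hk1, hk2⟩ : ∃ k : ℕ, 2 * (r : ℝ) * (m : ℝ) ^ k ≤ 1 ∧
      1 ≤ 2 * (r : ℝ) * (m : ℝ) ^ (k + 1) := by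
    rcases Nat.eq_zero_or_pos (Nat.find hex) with h0 | h0
    · have := Nat.find_spec hex
      rw [h0, pow_zero] at this
      linarith
    · obtain ⟨j, hj⟩ := Nat.exists_eq_succ_of_ne_zero h0.ne'
      refine ⟨j, ?_, ?_⟩
      · have h1 : ¬ (1 < 2 * (r : ℝ) * (m : ℝ) ^ j) := Nat.find_min hex (by omega)
        push Not at h1
        exact h1
      · have := Nat.find_spec hex
        rw [hj] at this
        exact this.le
  obtain ⟨S, hSA, hSfin, hScov, hScard⟩ := Metric.exists_set_encard_eq_coveringNumber hfin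
  have h1 := count_le_cover hm hmn hD hk1 hSfin.toFinset (by rwa [hSfin.coe_toFinset])
  have h2 : (Metric.coveringNumber r (range (coding D))).toNat = hSfin.toFinset.card := by
    rw [← hScard, hSfin.encard_eq_coe_toFinset_card, ENat.toNat_natCast]
  rw [h2]
  have h3 := le_count D hm hmn hD k
  have h4 : (1 / (2 * m) * (r : ℝ)⁻¹) ^ boxDim D ≤ ((m : ℝ) ^ k) ^ boxDim D := by
    apply Real.rpow_le_rpow (by positivity) _ (boxDim_nonneg D hm hmn hD)
    rw [pow_succ] at hk2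
    rw [← div_eq_mul_inv, div_div, div_le_iff₀ (by positivity)]
    linarith
  have h5 : ((D.card : ℝ) ^ (lev m n k) * ((columns D).card : ℝ) ^ (k - lev m n k))
      ≤ 9 * hSfin.toFinset.card := by exact_mod_cast h1
  rw [Real.rpow_neg hr0.le, ← Real.inv_rpow hr0.le, mul_assoc, ← Real.mul_rpow (by positivity)
    (by positivity)]
  calc 1 / 9 * ((columns D).card / (D.card : ℝ)) * (1 / (2 * m) * (r : ℝ)⁻¹) ^ boxDim D
      ≤ 1 / 9 * ((columns D).card / (D.card : ℝ)) * ((m : ℝ) ^ k) ^ boxDim D := by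
        apply mul_le_mul_of_nonneg_left h4 (by positivity)
    _ ≤ _ := by linarith

theorem tendsto_neg_log : Tendsto (fun r : ℝ≥0 => -Real.log (r : ℝ)) (𝓝[>] 0) atTop := by
  have h1 : Tendsto (fun r : ℝ≥0 => (r : ℝ)) (𝓝[>] 0) (𝓝[>] 0) := by
    apply tendsto_nhdsWithin_of_tendsto_nhds_of_eventually_within
    · have := (NNReal.continuous_coe.tendsto 0)
      exact this.mono_left nhdsWithin_le_nhds
    · filter_upwards [self_mem_nhdsWithin] with r hr
      exact_mod_cast hr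
  exact tendsto_neg_atBot_atTop.comp (Real.tendsto_log_nhdsGT_zero.comp h1)

theorem ratio_lt {A : Set Plane} (hA : A.Nonempty) {C s b : ℝ} (hC : 0 < C) (hb : s < b)
    (h : ∀ r : ℝ≥0, 0 < r → (r : ℝ) ≤ 1 → Metric.coveringNumber r A ≠ ⊤ ∧
      ((Metric.coveringNumber r A).toNat : ℝ) ≤ 1 / (C * ((r : ℝ) / 2) ^ s)) :
    ∀ᶠ r : ℝ≥0 in 𝓝[>] 0,
      Real.log ((Metric.coveringNumber r A).toNat : ℝ) / (-Real.log (r : ℝ)) < b := by
  have h1 : ∀ᶠ r : ℝ≥0 in 𝓝[>] 0,
      max 1 ((|Real.log C + s * Real.log (1 / 2)| + 1) / (b - s)) < -Real.log (r : ℝ) :=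
    tendsto_neg_log.eventually_gt_atTop _
  have h2 : ∀ᶠ r : ℝ≥0 in 𝓝[>] 0, r ≤ 1 := by
    filter_upwards [Ioc_mem_nhdsGT (zero_lt_one' ℝ≥0)] with r hr
    exact hr.2
  filter_upwards [h1, h2, self_mem_nhdsWithin] with r hr1 hr2 hr3
  have hr0 : (0 : ℝ) < r := by exact_mod_cast hr3
  obtain ⟨h3, h4⟩ := h r hr3 (by exact_mod_cast hr2)
  have h5 : (1 : ℝ) ≤ ((Metric.coveringNumber r A).toNat : ℝ) := by
    have h6 : 0 < Metric.coveringNumber r A := Metric.coveringNumber_pos_iff.2 hA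
    have h7 : (Metric.coveringNumber r A).toNat ≠ 0 := by
      intro h8
      rw [ENat.toNat_eq_zero] at h8
      rcases h8 with h8 | h8
      · exact h6.ne' h8
      · exact h3 h8
    exact_mod_cast Nat.one_le_iff_ne_zero.2 h7
  have h6 := Real.log_le_log (by linarith) h4
  have h7 : Real.log (1 / (C * ((r : ℝ) / 2) ^ s))
      = -(Real.log C + s * Real.log (1 / 2)) + s * (-Real.log r) := by
    rw [one_div, Real.log_inv, Real.log_mul hC.ne' (by positivity), Real.log_rpow (by positivity),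
      Real.log_div hr0.ne' (by norm_num), one_div, Real.log_inv]
    ring
  rw [h7] at h6
  have h8 : 1 < -Real.log (r : ℝ) := lt_of_le_of_lt (le_max_left _ _) hr1
  have h9 : (|Real.log C + s * Real.log (1 / 2)| + 1) / (b - s) < -Real.log (r : ℝ) :=
    lt_of_le_of_lt (le_max_right _ _) hr1
  rw [div_lt_iff₀ (by linarith)] at h9 ⊢
  have h10 := neg_abs_le (Real.log C + s * Real.log (1 / 2))
  nlinarith

theorem lt_ratio {A : Set Plane} {c s a : ℝ} (hc : 0 < c) (ha : a < s)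
    (h : ∀ r : ℝ≥0, 0 < r → (r : ℝ) ≤ 1 / 2 →
      c * (r : ℝ) ^ (-s) ≤ ((Metric.coveringNumber r A).toNat : ℝ)) :
    ∀ᶠ r : ℝ≥0 in 𝓝[>] 0,
      a < Real.log ((Metric.coveringNumber r A).toNat : ℝ) / (-Real.log (r : ℝ)) := by
  have h1 : ∀ᶠ r : ℝ≥0 in 𝓝[>] 0,
      max 1 ((|Real.log c| + 1) / (s - a)) < -Real.log (r : ℝ) :=
    tendsto_neg_log.eventually_gt_atTop _
  have h2 : ∀ᶠ r : ℝ≥0 in 𝓝[>] 0, r ≤ 1 / 2 := by
    have : (0 : ℝ≥0) < 1 / 2 := by positivity
    filter_upwards [Ioc_mem_nhdsGT this] with r hr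
    exact hr.2
  filter_upwards [h1, h2, self_mem_nhdsWithin] with r hr1 hr2 hr3
  have hr0 : (0 : ℝ) < r := by exact_mod_cast hr3
  have h4 := h r hr3 (by exact_mod_cast hr2)
  have h6 := Real.log_le_log (by positivity) h4
  rw [Real.log_mul hc.ne' (by positivity), Real.log_rpow hr0] at h6
  have h8 : 1 < -Real.log (r : ℝ) := lt_of_le_of_lt (le_max_left _ _) hr1
  have h9 : (|Real.log c| + 1) / (s - a) < -Real.log (r : ℝ) :=
    lt_of_le_of_lt (le_max_right _ _) hr1
  rw [div_lt_iff₀ (by linarith)] at h9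
  rw [lt_div_iff₀ (by linarith)]
  have h10 := neg_abs_le (Real.log c)
  nlinarith

end Pool.Agent.H28.Carpet
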