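import Pool.Agent.H28.Carpet.Defs

open MeasureTheory Filter Topology Set
open scoped ENNReal NNReal

namespace Pool.Agent.H28.Carpet

section shift

variable {α : Type*} [MeasurableSpace α]

theorem measurable_shift : Measurable (shift : (ℕ → α) → ℕ → α) := by
  rw [measurable_pi_iff]
  intro k
  exact measurable_pi_apply (k + 1)

theorem map_shift_infinitePi (μ : ℕ → Measure α) [∀ t, IsProbabilityMeasure (μ t)] :
    (Measure.infinitePi μ).map shift = Measure.infinitePi fun t => μ (t + 1) := by
  apply Measure.eq_infinitePi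
  intro s t ht
  rw [Measure.map_apply measurable_shift (MeasurableSet.pi s.countable_toSet fun i _ => ht i)]
  have h1 : (shift : (ℕ → α) → ℕ → α) ⁻¹' (Set.pi s t)
      = Set.pi ((s.map ⟨Nat.succ, Nat.succ_injective⟩ : Finset ℕ) : Set ℕ)
          (fun i => t (i - 1)) := by
    ext ω
    simp [shift, Set.mem_pi]
  rw [h1, Measure.infinitePi_pi _ fun i _ => ht _, Finset.prod_map]
  simp

end shift

variable {m n : ℕ} (D : Finset (Fin m × Fin n))

/-- The set of nonempty columns. -/
def columns : Finset (Fin m) := D.image Prod.fst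

/-- The number of elements in the column `c`. -/
def colCard (c : Fin m) : ℕ := (D.filter fun d => d.1 = c).card

theorem colCard_pos {d : Fin m × Fin n} (hd : d ∈ D) : 0 < colCard D d.1 := by
  unfold colCard
  rw [Finset.card_pos]
  exact ⟨d, by simp [hd]⟩

theorem columns_card_pos (hD : D.Nonempty) : 0 < (columns D).card := by
  rw [Finset.card_pos]
  exact hD.image _

theorem columns_card_le : (columns D).card ≤ D.card := Finset.card_image_le

/-- The measure with weights `w` on `D`. -/
noncomputable def wMeasure (w : D → ℝ≥0∞) : Measure D := ∑ d : D, w d • Measure.dirac d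

theorem wMeasure_apply (w : D → ℝ≥0∞) (S : Set D) [DecidablePred (· ∈ S)] :
    wMeasure D w S = ∑ d : D with d ∈ S, w d := by
  have hS : MeasurableSet S := S.to_countable.measurableSet
  unfold wMeasure
  rw [Measure.finsetSum_apply, Finset.sum_filter]
  apply Finset.sum_congr rfl
  intro d _
  rw [Measure.smul_apply, Measure.dirac_apply' _ hS, smul_eq_mul]
  by_cases h : d ∈ S <;> simp [h]

/-- Uniform weights. -/
noncomputable def wA (_ : D) : ℝ≥0∞ := (D.card : ℝ≥0∞)⁻¹

/-- Weights whose column marginal is uniform. -/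
noncomputable def wB (d : D) : ℝ≥0∞ :=
  ((columns D).card : ℝ≥0∞)⁻¹ * (colCard D (d : Fin m × Fin n).1 : ℝ≥0∞)⁻¹

theorem sum_wA (hD : D.Nonempty) : ∑ d : D, wA D d = 1 := by
  unfold wA
  rw [Finset.sum_const, Finset.card_univ, Fintype.card_coe, nsmul_eq_mul]
  apply ENNReal.mul_inv_cancel
  · exact_mod_cast hD.card_pos.ne'
  · exact ENNReal.natCast_ne_top _

theorem sum_wB_col {c : Fin m} (hc : c ∈ columns D) :
    ∑ d ∈ (Finset.univ : Finset D).filter (fun d : D => (d : Fin m × Fin n).1 = c), wB D d = ((columns D).card : ℝ≥0∞)⁻¹ := by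
  have h1 : ∑ d ∈ (Finset.univ : Finset D).filter (fun d : D => (d : Fin m × Fin n).1 = c), wB D d
      = ∑ d ∈ (Finset.univ : Finset D).filter (fun d : D => (d : Fin m × Fin n).1 = c),
        ((columns D).card : ℝ≥0∞)⁻¹ * (colCard D c : ℝ≥0∞)⁻¹ := by
    apply Finset.sum_congr rfl
    intro d hd
    rw [Finset.mem_filter] at hd
    unfold wB
    rw [hd.2]
  have hcard : (Finset.univ.filter fun d : D => (d : Fin m × Fin n).1 = c).card = colCard D c := by
    unfold colCard
    rw [← Finset.card_map (Function.Embedding.subtype fun d => d ∈ D)]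
    congr 1
    ext d
    simp only [Finset.mem_map, Finset.mem_filter, Finset.mem_univ, true_and,
      Function.Embedding.subtype_apply, Subtype.exists, exists_and_left, exists_prop]
    constructor
    · rintro ⟨e, he, heD, rfl⟩
      exact ⟨heD, he⟩
    · rintro ⟨hdD, hd⟩
      exact ⟨d, hd, hdD, rfl⟩
  rw [h1, Finset.sum_const, hcard, nsmul_eq_mul]
  obtain ⟨d, hd, rfl⟩ := Finset.mem_image.1 hc
  have h2 : (colCard D d.1 : ℝ≥0∞) ≠ 0 := by exact_mod_cast (colCard_pos D hd).ne'
  have h3 : (colCard D d.1 : ℝ≥0∞) ≠ ⊤ := ENNReal.natCast_ne_top _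
  calc (colCard D d.1 : ℝ≥0∞) * (((columns D).card : ℝ≥0∞)⁻¹ * (colCard D d.1 : ℝ≥0∞)⁻¹)
      = ((columns D).card : ℝ≥0∞)⁻¹ * ((colCard D d.1 : ℝ≥0∞) * (colCard D d.1 : ℝ≥0∞)⁻¹) := by
        ring
    _ = _ := by rw [ENNReal.mul_inv_cancel h2 h3, mul_one]

theorem sum_wB (hD : D.Nonempty) : ∑ d : D, wB D d = 1 := by
  have h1 : ∑ d : D, wB D d
      = ∑ c ∈ columns D, ∑ d ∈ (Finset.univ : Finset D).filter (fun d : D => (d : Fin m × Fin n).1 = c), wB D d := by
    rw [Finset.sum_fiberwise_of_maps_to]
    intro d _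
    exact Finset.mem_image_of_mem _ d.2
  rw [h1, Finset.sum_congr rfl fun c hc => sum_wB_col D hc, Finset.sum_const, nsmul_eq_mul]
  apply ENNReal.mul_inv_cancel
  · exact_mod_cast (columns_card_pos D hD).ne'
  · exact ENNReal.natCast_ne_top _

theorem isProbabilityMeasure_wMeasure {w : D → ℝ≥0∞} (hw : ∑ d : D, w d = 1) :
    IsProbabilityMeasure (wMeasure D w) := by
  classical
  constructor
  rw [wMeasure_apply D w univ]
  simpa using hw

/-- `l(k) = max {l : n^l ≤ m^k}`. -/
def lev (m n k : ℕ) : ℕ := Nat.log n (m ^ k)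

/-- The weights at time `t` of the phase `s` process of level `k`. -/
noncomputable def phaseW (k s t : ℕ) : D → ℝ≥0∞ :=
  if (t + s) % (k + 1) < lev m n k then wA D else wB D

/-- The one-step measure. -/
noncomputable def phaseM (k s t : ℕ) : Measure D := wMeasure D (phaseW D k s t)

theorem isProb_phaseM (hD : D.Nonempty) (k s t : ℕ) : IsProbabilityMeasure (phaseM D k s t) := by
  apply isProbabilityMeasure_wMeasure
  unfold phaseW
  split_ifs
  · exact sum_wA D hD
  · exact sum_wB D hD

/-- Product measure of level `k` and phase `s`. -/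
noncomputable def phaseP (hD : D.Nonempty) (k s : ℕ) : Measure (ℕ → D) :=
  haveI := fun t => isProb_phaseM D hD k s t
  Measure.infinitePi (phaseM D k s)

theorem isProb_phaseP (hD : D.Nonempty) (k s : ℕ) : IsProbabilityMeasure (phaseP D hD k s) := by
  haveI := fun t => isProb_phaseM D hD k s t
  unfold phaseP
  infer_instance

theorem map_shift_phaseP (hD : D.Nonempty) (k s : ℕ) :
    (phaseP D hD k s).map shift = phaseP D hD k (s + 1) := by
  haveI := fun s t => isProb_phaseM D hD k s t
  unfold phaseP
  rw [map_shift_infinitePi]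
  congr 1
  funext t
  unfold phaseM phaseW
  have : t + 1 + s = t + (s + 1) := by ring
  rw [this]

theorem phaseP_period (hD : D.Nonempty) (k : ℕ) : phaseP D hD k (k + 1) = phaseP D hD k 0 := by
  haveI := fun s t => isProb_phaseM D hD k s t
  unfold phaseP
  congr 1
  funext t
  unfold phaseM phaseW
  simp

/-- The stationary average over the phases. -/
noncomputable def statP (hD : D.Nonempty) (k : ℕ) : Measure (ℕ → D) :=
  ((k + 1 : ℕ) : ℝ≥0∞)⁻¹ • ∑ s ∈ Finset.range (k + 1), phaseP D hD k s

theorem map_finset_sum {α β ι : Type*} [MeasurableSpace α] [MeasurableSpace β] {f : α → β}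
    (hf : Measurable f) (s : Finset ι) (μ : ι → Measure α) :
    (∑ i ∈ s, μ i).map f = ∑ i ∈ s, (μ i).map f := by
  classical
  induction s using Finset.induction_on with
  | empty => simp
  | insert a s ha ih =>
    rw [Finset.sum_insert ha, Finset.sum_insert ha, Measure.map_add _ _ hf, ih]

theorem map_shift_statP (hD : D.Nonempty) (k : ℕ) :
    (statP D hD k).map shift = statP D hD k := by
  unfold statP
  rw [Measure.map_smul, map_finset_sum measurable_shift]
  congr 1
  simp_rw [map_shift_phaseP]
  rw [Finset.sum_range_succ, phaseP_period, ← Finset.sum_range_succ' (fun s => phaseP D hD k s)]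

theorem statP_univ (hD : D.Nonempty) (k : ℕ) : statP D hD k univ = 1 := by
  unfold statP
  rw [Measure.smul_apply, Measure.finsetSum_apply]
  have h1 : ∀ s, phaseP D hD k s univ = 1 := by
    intro s
    haveI := isProb_phaseP D hD k s
    exact measure_univ
  simp_rw [h1]
  rw [Finset.sum_const, Finset.card_range, smul_eq_mul, nsmul_eq_mul, mul_one]
  apply ENNReal.inv_mul_cancel
  · exact_mod_cast Nat.succ_ne_zero k
  · exact ENNReal.natCast_ne_top _

/-- The weights of the mixture. -/
noncomputable def mixW (k : ℕ) : ℝ≥0∞ := ENNReal.ofReal (1 / ((k + 1) * (k + 2)))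

theorem tsum_mixW : ∑' k, mixW k = 1 := by
  have hsum : HasSum (fun k : ℕ => 1 / (((k : ℝ) + 1) * (k + 2))) 1 := by
    rw [hasSum_iff_tendsto_nat_of_nonneg (fun k => by positivity)]
    have h1 : ∀ N : ℕ, ∑ k ∈ Finset.range N, 1 / (((k : ℝ) + 1) * (k + 2)) = 1 - 1 / (N + 1) := by
      intro N
      induction N with
      | zero => simp
      | succ N ih =>
        rw [Finset.sum_range_succ, ih]
        push_cast
        field_simp
        ring
    simp_rw [h1]
    have h2 : Tendsto (fun N : ℕ => (1 : ℝ) - 1 / ((N : ℝ) + 1)) atTop (𝓝 (1 - 0)) :=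
      tendsto_const_nhds.sub tendsto_one_div_add_atTop_nhds_zero_nat
    rwa [sub_zero] at h2
  unfold mixW
  rw [← ENNReal.ofReal_tsum_of_nonneg (fun k => by positivity) hsum.summable, hsum.tsum_eq,
    ENNReal.ofReal_one]

/-- The invariant measure. -/
noncomputable def mixP (hD : D.Nonempty) : Measure (ℕ → D) :=
  Measure.sum fun k => mixW k • statP D hD k

theorem isProb_mixP (hD : D.Nonempty) : IsProbabilityMeasure (mixP D hD) := by
  constructor
  unfold mixP
  rw [Measure.sum_apply _ MeasurableSet.univ]
  simp_rw [Measure.smul_apply, statP_univ, smul_eq_mul, mul_one]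
  exact tsum_mixW

theorem measurePreserving_mixP (hD : D.Nonempty) :
    MeasurePreserving shift (mixP D hD) (mixP D hD) := by
  refine ⟨measurable_shift, ?_⟩
  unfold mixP
  rw [Measure.map_sum measurable_shift.aemeasurable]
  congr 1
  funext k
  rw [Measure.map_smul, map_shift_statP]

/-- The approximate-square cylinder of level `k` around `ω`. -/
def cyl (k : ℕ) (ω : ℕ → D) : Set (ℕ → D) :=
  {ω' | (∀ t < lev m n k, ω' t = ω t) ∧
    ∀ t < k, (ω' t : Fin m × Fin n).1 = (ω t : Fin m × Fin n).1}

theorem phaseP_cyl (hD : D.Nonempty) {k : ℕ} (hk : lev m n k ≤ k) (ω : ℕ → D) :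
    phaseP D hD k 0 (cyl D k ω)
      = ((D.card : ℝ≥0∞)⁻¹) ^ (lev m n k) * (((columns D).card : ℝ≥0∞)⁻¹) ^ (k - lev m n k) := by
  classical
  haveI := fun s t => isProb_phaseM D hD k s t
  have hset : cyl D k ω = Set.pi ((Finset.range k : Finset ℕ) : Set ℕ) fun t =>
      if t < lev m n k then {ω t} else {d : D | (d : Fin m × Fin n).1 = (ω t : Fin m × Fin n).1} := by
    ext ω'
    simp only [cyl, Set.mem_pi, Finset.coe_range, mem_Iio, mem_ofPred_eq]
    constructor
    · rintro ⟨h1, h2⟩ t ht
      by_cases htl : t < lev m n k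
      · rw [if_pos htl]; exact h1 t htl
      · rw [if_neg htl]; exact h2 t ht
    · intro h
      constructor
      · intro t ht
        have := h t (ht.trans_le hk)
        rw [if_pos ht] at this
        exact this
      · intro t ht
        have := h t ht
        by_cases htl : t < lev m n k
        · rw [if_pos htl] at this
          rw [mem_singleton_iff.1 this]
        · rw [if_neg htl] at this
          exact this
  unfold phaseP
  rw [hset, Measure.infinitePi_pi _ fun t _ => Set.Countable.measurableSet (Set.to_countable _)]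
  have hprod : ∏ t ∈ Finset.range k, phaseM D k 0 t
      (if t < lev m n k then {ω t} else {d : D | (d : Fin m × Fin n).1 = (ω t : Fin m × Fin n).1})
      = ∏ t ∈ Finset.range k, if t < lev m n k then (D.card : ℝ≥0∞)⁻¹
        else ((columns D).card : ℝ≥0∞)⁻¹ := by
    apply Finset.prod_congr rfl
    intro t ht
    rw [Finset.mem_range] at ht
    have hmod : (t + 0) % (k + 1) = t := by
      rw [add_zero]
      exact Nat.mod_eq_of_lt (by omega)
    unfold phaseM phaseW
    rw [hmod]
    by_cases htl : t < lev m n k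
    · simp only [htl, if_true]
      rw [wMeasure_apply]
      simp [wA, Finset.filter_eq']
    · simp only [htl, if_false]
      rw [wMeasure_apply]
      simp only [mem_ofPred_eq]
      exact sum_wB_col D (Finset.mem_image_of_mem _ (ω t).2)
  rw [hprod, Finset.prod_ite, Finset.prod_const, Finset.prod_const]
  congr 2
  · have : (Finset.range k).filter (fun t => t < lev m n k) = Finset.range (lev m n k) := by
      ext t; simp only [Finset.mem_filter, Finset.mem_range]; omega
    rw [this, Finset.card_range]
  · have : (Finset.range k).filter (fun t => ¬ t < lev m n k) = Finset.Ico (lev m n k) k := by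
      ext t; simp only [Finset.mem_filter, Finset.mem_range, Finset.mem_Ico]; omega
    rw [this, Nat.card_Ico]

theorem mixP_cyl (hD : D.Nonempty) {k : ℕ} (hk : lev m n k ≤ k) (ω : ℕ → D) :
    mixW k * (((k + 1 : ℕ) : ℝ≥0∞)⁻¹ * (((D.card : ℝ≥0∞)⁻¹) ^ (lev m n k) *
      (((columns D).card : ℝ≥0∞)⁻¹) ^ (k - lev m n k))) ≤ mixP D hD (cyl D k ω) := by
  have h1 : mixW k * statP D hD k (cyl D k ω) ≤ mixP D hD (cyl D k ω) := by
    have h2 : mixW k • statP D hD k ≤ mixP D hD := Measure.le_sum _ k
    have := h2 (cyl D k ω)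
    rwa [Measure.smul_apply, smul_eq_mul] at this
  refine le_trans ?_ h1
  gcongr
  unfold statP
  rw [Measure.smul_apply, smul_eq_mul, Measure.finsetSum_apply, ← phaseP_cyl D hD hk ω]
  gcongr
  exact Finset.single_le_sum (f := fun s => phaseP D hD k s (cyl D k ω))
    (fun _ _ => zero_le) (Finset.mem_range.2 (Nat.succ_pos k))

end Pool.Agent.H28.Carpet
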